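import Pool.Agent.MP_03af62_an.Defs

/-! Calculus for smooth functions on `[0,T) × [0,1]` and the first variation of the energy. -/

open Set MeasureTheory
open scoped ContDiff Topology

namespace Pool.Agent.MP_03af62_an.Ft

/-- The parameter domain. -/
def U (T : ℝ) : Set (ℝ × ℝ) := Ico 0 T ×ˢ Icc 0 1

section calculus

variable {E : Type} [NormedAddCommGroup E] [NormedSpace ℝ E] {T : ℝ} {f g : ℝ × ℝ → E}
  {p : ℝ × ℝ}

/-- Derivative in the space variable. -/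
noncomputable def dX (f : ℝ × ℝ → E) (p : ℝ × ℝ) : E :=
  derivWithin (fun y => f (p.1, y)) (Icc 0 1) p.2

/-- Derivative in the time variable. -/
noncomputable def dT (T : ℝ) (f : ℝ × ℝ → E) (p : ℝ × ℝ) : E :=
  derivWithin (fun u => f (u, p.2)) (Ico 0 T) p.1

/-- Smooth on the parameter domain. -/
def Sm (T : ℝ) (f : ℝ × ℝ → E) : Prop := ContDiffOn ℝ ∞ f (U T)

theorem udU (T : ℝ) : UniqueDiffOn ℝ (U T) :=
  (uniqueDiffOn_Ico 0 T).prod (uniqueDiffOn_Icc zero_lt_one)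

theorem eqX {a : E} {h : ℝ → E} (hp : p ∈ U T) (ha : HasDerivWithinAt h a (Icc 0 1) p.2)
    (hh : ∀ y ∈ Icc (0 : ℝ) 1, f (p.1, y) = h y) : dX f p = a :=
  (ha.congr hh (hh _ hp.2)).derivWithin (uniqueDiffOn_Icc zero_lt_one _ hp.2)

theorem eqT {a : E} {h : ℝ → E} (hp : p ∈ U T) (ha : HasDerivWithinAt h a (Ico 0 T) p.1)
    (hh : ∀ u ∈ Ico 0 T, f (u, p.2) = h u) : dT T f p = a :=
  (ha.congr hh (hh _ hp.1)).derivWithin (uniqueDiffOn_Ico 0 T _ hp.1)

theorem Sm.hF (hf : Sm T f) (hp : p ∈ U T) :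
    HasFDerivWithinAt f (fderivWithin ℝ f (U T) p) (U T) p :=
  (hf.differentiableOn (by simp) p hp).hasFDerivWithinAt

theorem Sm.hX0 (hf : Sm T f) (hp : p ∈ U T) : HasDerivWithinAt (fun y => f (p.1, y))
    (fderivWithin ℝ f (U T) p (0, 1)) (Icc 0 1) p.2 :=
  (hf.hF hp).comp_hasDerivWithinAt p.2
    ((hasDerivAt_const p.2 p.1).prodMk (hasDerivAt_id p.2)).hasDerivWithinAt
    (fun _ hy => mk_mem_prod hp.1 hy)

theorem Sm.hT0 (hf : Sm T f) (hp : p ∈ U T) : HasDerivWithinAt (fun u => f (u, p.2))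
    (fderivWithin ℝ f (U T) p (1, 0)) (Ico 0 T) p.1 :=
  (hf.hF hp).comp_hasDerivWithinAt p.1
    ((hasDerivAt_id p.1).prodMk (hasDerivAt_const p.1 p.2)).hasDerivWithinAt
    (fun _ hy => mk_mem_prod hy hp.2)

theorem Sm.eX (hf : Sm T f) (hp : p ∈ U T) : dX f p = fderivWithin ℝ f (U T) p (0, 1) :=
  eqX hp (hf.hX0 hp) fun _ _ => rfl

theorem Sm.eT (hf : Sm T f) (hp : p ∈ U T) : dT T f p = fderivWithin ℝ f (U T) p (1, 0) :=
  eqT hp (hf.hT0 hp) fun _ _ => rfl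

theorem Sm.hX (hf : Sm T f) (hp : p ∈ U T) :
    HasDerivWithinAt (fun y => f (p.1, y)) (dX f p) (Icc 0 1) p.2 := hf.eX hp ▸ hf.hX0 hp

theorem Sm.hT (hf : Sm T f) (hp : p ∈ U T) :
    HasDerivWithinAt (fun u => f (u, p.2)) (dT T f p) (Ico 0 T) p.1 := hf.eT hp ▸ hf.hT0 hp

theorem Sm.fd (hf : Sm T f) : Sm T (fderivWithin ℝ f (U T)) :=
  ((contDiffOn_infty_iff_fderivWithin (udU T)).1 hf).2

theorem Sm.dX (hf : Sm T f) : Sm T (dX f) :=
  (ContDiffOn.clm_apply hf.fd contDiffOn_const).congr fun _ hp => hf.eX hp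

theorem Sm.dT (hf : Sm T f) : Sm T (dT T f) :=
  (ContDiffOn.clm_apply hf.fd contDiffOn_const).congr fun _ hp => hf.eT hp

theorem Sm.comm (hf : Sm T f) (hp : p ∈ U T) : Ft.dX (Ft.dT T f) p = Ft.dT T (Ft.dX f) p := by
  have h0 : p ∈ closure (interior (U T)) := by
    rw [U, interior_prod_eq, closure_prod_eq, interior_Ico, interior_Icc,
      closure_Ioo (hp.1.1.trans_lt hp.1.2).ne, closure_Ioo zero_ne_one]
    exact ⟨Ico_subset_Icc_self hp.1, hp.2⟩
  have h1 := (hf p hp).isSymmSndFDerivWithinAt (by simp; exact WithTop.coe_le_coe.2 le_top) (udU T) h0 hp (0, 1) (1, 0)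
  rw [eqX hp ((hf.fd.hX0 hp).clm_apply (hasDerivWithinAt_const _ _ (1, 0)))
      fun y hy => hf.eT ⟨hp.1, hy⟩,
    eqT hp ((hf.fd.hT0 hp).clm_apply (hasDerivWithinAt_const _ _ (0, 1)))
      fun y hy => hf.eX ⟨hy, hp.2⟩, h1]

omit [NormedSpace ℝ E] in
theorem slice (hf : ContinuousOn f (U T)) {t : ℝ} (ht : t ∈ Ico 0 T) :
    ContinuousOn (fun y => f (t, y)) (Icc 0 1) :=
  hf.comp (by fun_prop) fun _ hy => ⟨ht, hy⟩

theorem Sm.int (hf : Sm T f) {t : ℝ} (ht : t ∈ Ico 0 T) :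
    IntervalIntegrable (fun y => f (t, y)) volume 0 1 :=
  (slice hf.continuousOn ht).intervalIntegrable_of_Icc zero_le_one

theorem Sm.ftc [CompleteSpace E] (hf : Sm T f) {t : ℝ} (ht : t ∈ Ico 0 T) :
    ∫ y in (0 : ℝ)..1, Ft.dX f (t, y) = f (t, 1) - f (t, 0) :=
  intervalIntegral.integral_eq_sub_of_hasDerivAt_of_le (f := fun y => f (t, y)) zero_le_one
    (slice hf.continuousOn ht) (fun y hy => (hf.hX (p := (t, y))
      ⟨ht, Ioo_subset_Icc_self hy⟩).hasDerivAt (Icc_mem_nhds hy.1 hy.2)) (hf.dX.int ht)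

theorem Sm.cont_int (hf : Sm T f) :
    ContinuousOn (fun t => ∫ y in (0 : ℝ)..1, f (t, y)) (Ico 0 T) := by
  rw [continuousOn_iff_continuous_domRestrict]
  have h : Continuous (Function.uncurry fun (t : Ico (0 : ℝ) T) (y : ℝ) =>
      f (t, projIcc 0 1 zero_le_one y)) :=
    hf.continuousOn.comp_continuous ((continuous_subtype_val.comp continuous_fst).prodMk
      (continuous_subtype_val.comp (continuous_projIcc.comp continuous_snd)))
      fun q => ⟨q.1.2, (projIcc 0 1 zero_le_one q.2).2⟩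
  refine (intervalIntegral.continuous_parametric_intervalIntegral_of_continuous'
    (μ := volume) h 0 1).congr fun t => intervalIntegral.integral_congr fun y hy => ?_
  rw [uIcc_of_le zero_le_one] at hy
  simp only [projIcc_of_mem zero_le_one hy]

theorem Sm.deriv_int (hf : Sm T f) {t : ℝ} (ht : t ∈ Ioo 0 T) :
    HasDerivAt (fun u => ∫ y in (0 : ℝ)..1, f (u, y)) (∫ y in (0 : ℝ)..1, Ft.dT T f (t, y)) t := by
  obtain ⟨a, b, h1, h2, h3⟩ := exists_Icc_mem_subset_of_mem_nhds (Ioo_mem_nhds ht.1 ht.2)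
  have h4 : ∀ u ∈ Icc a b, u ∈ Ico 0 T := fun u hu => Ioo_subset_Ico_self (h3 hu)
  obtain ⟨C, hC⟩ := (isCompact_Icc.prod isCompact_Icc).exists_bound_of_continuousOn
    (hf.dT.continuousOn.mono (prod_mono h4 subset_rfl))
  have h5 : ∀ y ∈ uIoc (0 : ℝ) 1, y ∈ Icc (0 : ℝ) 1 := fun y hy => by
    rw [uIoc_of_le zero_le_one] at hy
    exact Ioc_subset_Icc_self hy
  refine (intervalIntegral.hasDerivAt_integral_of_dominated_loc_of_deriv_le
    (F := fun u y => f (u, y)) (F' := fun u y => Ft.dT T f (u, y)) (bound := fun _ => C) h2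
    ?_ (hf.int (h4 t h1)) (intervalIntegrable_iff.1 (hf.dT.int (h4 t h1))).aestronglyMeasurable
    (.of_forall fun y hy u hu => hC (u, y) ⟨hu, h5 y hy⟩) intervalIntegrable_const
    (.of_forall fun y hy u hu => ?_)).2
  · filter_upwards [h2] with u hu
    exact (intervalIntegrable_iff.1 (hf.int (h4 u hu))).aestronglyMeasurable
  · exact (hf.hT (p := (u, y)) ⟨h4 u hu, h5 y hy⟩).hasDerivAt (Ico_mem_nhds (h3 hu).1 (h3 hu).2)

end calculus

theorem inner_c (a b : ℂ) : inner ℝ a b = a.re * b.re + a.im * b.im := by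
  rw [Complex.inner]
  simp
  ring

theorem sq_c {a : ℂ} (h : ‖a‖ = 1) : a.re * a.re + a.im * a.im = 1 := by
  rw [← Complex.normSq_apply, Complex.normSq_eq_norm_sq, h, one_pow]

/-- The derivative of a unit vector is normal to it. -/
theorem unit_deriv {τ : ℝ → ℂ} {τ' : ℂ} {s : Set ℝ} {z : ℝ} (h : HasDerivWithinAt τ τ' s z)
    (hs : UniqueDiffWithinAt ℝ s z) (hz : z ∈ s) (h1 : ∀ y ∈ s, ‖τ y‖ = 1) :
    τ' = inner ℝ τ' (Complex.I * τ z) • (Complex.I * τ z) := by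
  have h2 : ∀ y ∈ s, (1 : ℝ) = inner ℝ (τ y) (τ y) := fun y hy => by
    rw [real_inner_self_eq_norm_sq, h1 y hy, one_pow]
  have h3 := hs.eq_deriv _ ((h.inner ℝ h).congr h2 (h2 z hz)) (hasDerivWithinAt_const z s 1)
  have h4 := sq_c (h1 z hz)
  simp only [inner_c] at h3 ⊢
  apply Complex.ext <;> simp
  · linear_combination (-τ'.re) * h4 + (τ z).re / 2 * h3
  · linear_combination (-τ'.im) * h4 + (τ z).im / 2 * h3

/-- The curve at time `t`. -/
def sl (G : ℝ × ℝ → ℂ) (t : ℝ) : ℝ → ℂ := fun y => G (t, y)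

noncomputable def rr (G : ℝ × ℝ → ℂ) (p : ℝ × ℝ) : ℝ := ‖dX G p‖
noncomputable def tn (G : ℝ × ℝ → ℂ) (p : ℝ × ℝ) : ℂ := ds (sl G p.1) (sl G p.1) p.2
noncomputable def kk (G : ℝ × ℝ → ℂ) (p : ℝ × ℝ) : ℝ := curv (sl G p.1) p.2
noncomputable def ks (G : ℝ × ℝ → ℂ) (p : ℝ × ℝ) : ℝ := ds (sl G p.1) (curv (sl G p.1)) p.2
noncomputable def kss (G : ℝ × ℝ → ℂ) (p : ℝ × ℝ) : ℝ :=
  ds (sl G p.1) (ds (sl G p.1) (curv (sl G p.1))) p.2
noncomputable def vv (m : ℝ) (G : ℝ × ℝ → ℂ) (p : ℝ × ℝ) : ℝ := vel m (sl G p.1) p.2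
/-- Angular velocity of the tangent. -/
noncomputable def om (T : ℝ) (G : ℝ × ℝ → ℂ) (p : ℝ × ℝ) : ℝ :=
  inner ℝ (dT T (tn G) p) (Complex.I * tn G p)
/-- The internal force. -/
noncomputable def ff (m : ℝ) (G : ℝ × ℝ → ℂ) (p : ℝ × ℝ) : ℂ :=
  (kk G p ^ 2 - m) • tn G p + (2 * ks G p) • (Complex.I * tn G p)
/-- The energy flux. -/
noncomputable def bb (T m : ℝ) (G : ℝ × ℝ → ℂ) (p : ℝ × ℝ) : ℝ :=
  2 * kk G p * om T G p - inner ℝ (ff m G p) (dT T G p)
/-- The energy density. -/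
noncomputable def ee (m : ℝ) (G : ℝ × ℝ → ℂ) (p : ℝ × ℝ) : ℝ := (kk G p ^ 2 + m) * rr G p

/-- A smooth family of regular curves. -/
structure Reg (T : ℝ) (G : ℝ × ℝ → ℂ) : Prop where
  sm : Sm T G
  ne : ∀ p ∈ U T, dX G p ≠ 0

namespace Reg

variable {T : ℝ} {G : ℝ × ℝ → ℂ} {p : ℝ × ℝ} (h : Reg T G)
include h

theorem r_pos (hp : p ∈ U T) : 0 < rr G p := norm_pos_iff.2 (h.ne p hp)

theorem sr : Sm T (rr G) := ContDiffOn.norm ℂ h.sm.dX h.ne

theorem sri : Sm T (fun p => (rr G p)⁻¹) := ContDiffOn.inv h.sr fun _ hp => (h.r_pos hp).ne'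

theorem st : Sm T (tn G) := ContDiffOn.smul (f := fun p => (rr G p)⁻¹) h.sri h.sm.dX

theorem sn : Sm T (fun p => Complex.I * tn G p) := ContDiffOn.mul contDiffOn_const h.st

theorem sk : Sm T (kk G) :=
  ContDiffOn.inner ℝ (ContDiffOn.smul (f := fun p => (rr G p)⁻¹) h.sri h.st.dX) h.sn

theorem sks : Sm T (ks G) := ContDiffOn.smul h.sri h.sk.dX

theorem skss : Sm T (kss G) := ContDiffOn.smul h.sri h.sks.dX

theorem sv (m : ℝ) : Sm T (vv m G) :=
  ((ContDiffOn.mul contDiffOn_const h.skss).sub (ContDiffOn.pow h.sk 3)).add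
    (ContDiffOn.mul contDiffOn_const h.sk)

theorem so : Sm T (om T G) := ContDiffOn.inner ℝ h.st.dT h.sn

theorem sf (m : ℝ) : Sm T (ff m G) :=
  (((ContDiffOn.pow h.sk 2).sub contDiffOn_const).smul h.st).add
    ((ContDiffOn.mul contDiffOn_const h.sks).smul h.sn)

theorem sb (m : ℝ) : Sm T (bb T m G) :=
  ((ContDiffOn.mul contDiffOn_const h.sk).mul h.so).sub (ContDiffOn.inner ℝ (h.sf m) h.sm.dT)

theorem se (m : ℝ) : Sm T (ee m G) := ((ContDiffOn.pow h.sk 2).add contDiffOn_const).mul h.sr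

theorem norm_t (hp : p ∈ U T) : ‖tn G p‖ = 1 := norm_smul_inv_norm (𝕜 := ℝ) (h.ne p hp)

theorem xG (hp : p ∈ U T) : dX G p = rr G p • tn G p :=
  (smul_inv_smul₀ (h.r_pos hp).ne' _).symm

theorem xk (hp : p ∈ U T) : dX (kk G) p = rr G p * ks G p :=
  (smul_inv_smul₀ (h.r_pos hp).ne' _).symm

theorem xks (hp : p ∈ U T) : dX (ks G) p = rr G p * kss G p :=
  (smul_inv_smul₀ (h.r_pos hp).ne' _).symm

theorem xt (hp : p ∈ U T) : dX (tn G) p = (rr G p * kk G p) • (Complex.I * tn G p) := by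
  have h1 : kk G p = inner ℝ ((rr G p)⁻¹ • dX (tn G) p) (Complex.I * tn G p) := rfl
  rw [h1, real_inner_smul_left, mul_inv_cancel_left₀ (h.r_pos hp).ne']
  have := unit_deriv (h.st.hX hp) (uniqueDiffOn_Icc zero_lt_one _ hp.2) hp.2
    fun y hy => h.norm_t (p := (p.1, y)) ⟨hp.1, hy⟩
  exact this

theorem tt (hp : p ∈ U T) : dT T (tn G) p = om T G p • (Complex.I * tn G p) := by
  have := unit_deriv (h.st.hT hp) (uniqueDiffOn_Ico 0 T _ hp.1) hp.1
    fun y hy => h.norm_t (p := (y, p.2)) ⟨hy, hp.2⟩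
  rw [om]
  exact this

theorem xX (hp : p ∈ U T) : dX (dT T G) p =
    rr G p • om T G p • (Complex.I * tn G p) + dT T (rr G) p • tn G p := by
  rw [h.sm.comm hp, ← h.tt hp]
  exact eqT hp ((h.sr.hT hp).smul (h.st.hT hp)) fun u hu => h.xG ⟨hu, hp.2⟩

theorem xo (hp : p ∈ U T) :
    dX (om T G) p = dT T (rr G) p * kk G p + rr G p * dT T (kk G) p := by
  have h1 := h.st.comm hp
  rw [eqX hp ((h.so.hX hp).smul ((h.st.hX hp).const_mul Complex.I))
      fun y hy => h.tt ⟨hp.1, hy⟩,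
    eqT hp (((h.sr.hT hp).mul (h.sk.hT hp)).smul ((h.st.hT hp).const_mul Complex.I))
      fun y hy => h.xt ⟨hy, hp.2⟩, h.xt hp, h.tt hp] at h1
  have h2 := sq_c (h.norm_t hp)
  have h3 := congrArg Complex.re h1
  have h4 := congrArg Complex.im h1
  simp at h3 h4
  linear_combination (tn G p).re * h4 - (tn G p).im * h3 -
    (dX (om T G) p - dT T (rr G) p * kk G p - rr G p * dT T (kk G) p) * h2

theorem xf (m : ℝ) (hp : p ∈ U T) :
    dX (ff m G) p = -(vv m G p * rr G p) • (Complex.I * tn G p) := by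
  have h0 : vv m G p = -2 * kss G p - kk G p ^ 3 + m * kk G p := rfl
  rw [eqX hp (((((h.sk.hX hp).pow 2).sub_const m).smul (h.st.hX hp)).add
    (((h.sks.hX hp).const_mul 2).smul ((h.st.hX hp).const_mul Complex.I))) fun y hy => rfl,
    h.xt hp, h.xk hp, h.xks hp, h0]
  apply Complex.ext <;> simp [-Complex.ofReal_pow] <;> ring

/-- The local energy balance. -/
theorem te (m : ℝ) (hp : p ∈ U T)
    (hv : inner ℝ (dT T G p) (Complex.I * tn G p) = vv m G p) :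
    dT T (ee m G) p = dX (bb T m G) p - vv m G p ^ 2 * rr G p := by
  rw [eqT hp ((((h.sk.hT hp).pow 2).add_const m).mul (h.sr.hT hp)) fun y hy => rfl,
    eqX hp ((((h.sk.hX hp).const_mul 2).mul (h.so.hX hp)).sub
      (((h.sf m).hX hp).inner ℝ (h.sm.dT.hX hp))) fun y hy => rfl,
    h.xf m hp, h.xX hp, h.xo hp, h.xk hp, real_inner_smul_left, real_inner_comm _ (_ * _), hv]
  have h2 := sq_c (h.norm_t hp)
  simp [ff, -Complex.ofReal_pow]
  linear_combination ((kk G p ^ 2 - m) * dT T (rr G) p + 2 * ks G p * rr G p * om T G p) * h2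

end Reg

end Pool.Agent.MP_03af62_an.Ft
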