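import Pool.Agent.MP_03af62_an.Defs

/-! The elastic energy, and bridges which cut off a free part of a network. -/

open Set

namespace Pool.Agent.MP_03af62_an

/-- The elastic energy `∑ᵢ ∫ (kⁱ)² + μⁱ ds` of the network `Γ`. -/
noncomputable def energy {N : ℕ} (D : Net N) (Γ : Fin N → ℝ → ℂ) : ℝ :=
  ∑ i, ∫ x in (0 : ℝ)..1, (curv (Γ i) x ^ 2 + D.weight i) * ‖derivWithin (Γ i) (Icc 0 1) x‖

/-- The curve `b.1` is a bridge which cuts off a free part: `S` is a set of vertices which are all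
natural junctions, the end `b` lies in `S`, the other end of this curve does not, and every other
curve has both ends in `S` or none. -/
def FreeBridge {N : ℕ} (D : Net N) (S : Set ℕ) (b : Fin N × Bool) : Prop :=
  D.vtx b ∈ S ∧ D.vtx (b.1, !b.2) ∉ S ∧
    (∀ i, i ≠ b.1 → (D.vtx (i, false) ∈ S ↔ D.vtx (i, true) ∈ S)) ∧
    ∀ e, D.vtx e ∈ S → ¬ D.clamped (D.vtx e) ∧ 2 ≤ (D.star e).card

end Pool.Agent.MP_03af62_an
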