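import Pool.Agent.MP_03af62_an.Fin.Defs
import Pool.Agent.MP_03af62_an.Eye.Glasses

/-! The bridge of the eyeglasses network is a free bridge. -/

namespace Pool.Agent.MP_03af62_an.Ft

theorem glasses_bridge (μ : ℝ) : FreeBridge (glasses μ) {0} (2, false) := by
  refine ⟨by simp [glasses], by simp [glasses], fun i hi => ?_, fun e he => ⟨id, ?_⟩⟩
  · fin_cases i <;> simp_all [glasses]
  · refine Finset.one_lt_card.2 ⟨(0, false), ?_, (0, true), ?_, by simp⟩ <;>
      exact Finset.mem_filter.2 ⟨Finset.mem_univ _, Eq.symm he⟩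

end Pool.Agent.MP_03af62_an.Ft
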