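import Pool.Agent.MP_03af62_an.Fin.Calc
import Pool.Agent.MP_03af62_an.Fin.Defs

/-! Energy dissipation and momentum balance for the elastic flow of networks. -/

open Set MeasureTheory
open scoped ContDiff Topology

namespace Pool.Agent.MP_03af62_an.Ft

variable {N : ℕ} {D : Net N} {T : ℝ} {γ : ℝ → Fin N → ℝ → ℂ}

/-- The `i`-th curve as a function of time and parameter. -/
def GG (γ : ℝ → Fin N → ℝ → ℂ) (i : Fin N) (p : ℝ × ℝ) : ℂ := γ p.1 i p.2

/-- Orientation of a curve end. -/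
def sg (e : Fin N × Bool) : ℝ := if e.2 then -1 else 1

/-- The dissipation on one curve. -/
noncomputable def dis (D : Net N) (γ : ℝ → Fin N → ℝ → ℂ) (t : ℝ) (i : Fin N) : ℝ :=
  ∫ y in (0 : ℝ)..1, vv (D.weight i) (GG γ i) (t, y) ^ 2 * rr (GG γ i) (t, y)

/-- The energy of one curve. -/
noncomputable def en (D : Net N) (γ : ℝ → Fin N → ℝ → ℂ) (t : ℝ) (i : Fin N) : ℝ :=
  ∫ y in (0 : ℝ)..1, ee (D.weight i) (GG γ i) (t, y)

theorem energy_eq (t : ℝ) : energy D (γ t) = ∑ i, en D γ t i := rfl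

theorem reg (h : IsFlow D T γ) (i : Fin N) : Reg T (GG γ i) :=
  ⟨h.1 i, fun p hp => ((h.2 p.1 hp.1).2 i p.2 hp.2).1⟩

theorem pt_mem (b : Bool) : pt b ∈ Icc (0 : ℝ) 1 := by cases b <;> simp [pt]

theorem sum_star {M : Type} [AddCommMonoid M] (D : Net N) (f : Fin N × Bool → M) (S : Set ℕ)
    [DecidablePred (· ∈ S)] (h : ∀ e, D.vtx e ∈ S → ∑ e' ∈ D.star e, f e' = 0) :
    ∑ i, ((if D.vtx (i, true) ∈ S then f (i, true) else 0) +
      if D.vtx (i, false) ∈ S then f (i, false) else 0) = 0 := by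
  have h1 := Finset.sum_fiberwise_of_maps_to (s := Finset.univ) (g := D.vtx)
    (t := Finset.univ.image D.vtx) (fun e he => Finset.mem_image_of_mem _ he)
    (fun e => if D.vtx e ∈ S then f e else 0)
  rw [Fintype.sum_prod_type] at h1
  simp only [Fintype.sum_bool] at h1
  rw [← h1]
  refine Finset.sum_eq_zero fun v hv => ?_
  obtain ⟨e, -, rfl⟩ := Finset.mem_image.1 hv
  by_cases he : D.vtx e ∈ S
  · rw [← h e he]
    exact Finset.sum_congr rfl fun e' he' => if_pos ((Finset.mem_filter.1 he').2 ▸ he)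
  · exact Finset.sum_eq_zero fun e' he' => if_neg ((Finset.mem_filter.1 he').2 ▸ he)

theorem dT_const {E : Type} [NormedAddCommGroup E] [NormedSpace ℝ E] {f : ℝ × ℝ → E} {p : ℝ × ℝ}
    (hp : p ∈ U T) (c : E) (h : ∀ u ∈ Ico 0 T, f (u, p.2) = c) : dT T f p = 0 :=
  eqT hp (hasDerivWithinAt_const _ _ c) h

theorem star_vtx {e e' : Fin N × Bool} (h : e' ∈ D.star e) : D.vtx e' = D.vtx e :=
  (Finset.mem_filter.1 h).2

theorem star_eq {e e' : Fin N × Bool} (h : e' ∈ D.star e) : D.star e' = D.star e := by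
  rw [Net.star, star_vtx h, Net.star]

/-- Balance of forces at a natural junction. -/
theorem force (h : IsFlow D T γ) {t : ℝ} (ht : t ∈ Ico 0 T) {e : Fin N × Bool}
    (h1 : ¬ D.clamped (D.vtx e)) (h2 : 2 ≤ (D.star e).card) :
    ∑ e' ∈ D.star e, sg e' • ff (D.weight e'.1) (GG γ e'.1) (t, pt e'.2) = 0 := by
  rw [← (((h.2 t ht).1 e).2.2 h1).2.2 h2]
  refine Finset.sum_congr rfl fun e' he' => ?_
  have h3 : kk (GG γ e'.1) (t, pt e'.2) = 0 := (((h.2 t ht).1 e').2.2 (star_vtx he' ▸ h1)).1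
  rw [ff, h3, add_comm, sq, mul_zero, zero_sub, neg_smul, ← sub_eq_add_neg]
  rfl

/-- No energy is created at the vertices. -/
theorem flux (h : IsFlow D T γ) {t : ℝ} (ht : t ∈ Ico 0 T) (e : Fin N × Bool) :
    ∑ e' ∈ D.star e, sg e' * bb T (D.weight e'.1) (GG γ e'.1) (t, pt e'.2) = 0 := by
  have hp : ∀ b, (t, pt b) ∈ U T := fun b => ⟨ht, pt_mem b⟩
  by_cases h1 : D.clamped (D.vtx e)
  · refine Finset.sum_eq_zero fun e' he' => ?_
    have h2 := fun u hu => ((h.2 u hu).1 e').2.1 (star_vtx he' ▸ h1)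
    rw [bb, om, dT_const (f := GG γ e'.1) (hp _) _ fun u hu => (h2 u hu).1,
      dT_const (f := tn (GG γ e'.1)) (hp _) _ fun u hu => (h2 u hu).2]
    simp
  have h3 : ∀ e' ∈ D.star e, kk (GG γ e'.1) (t, pt e'.2) = 0 :=
    fun e' he' => (((h.2 t ht).1 e').2.2 (star_vtx he' ▸ h1)).1
  have h4 : ∀ e' ∈ D.star e, dT T (GG γ e'.1) (t, pt e'.2) = dT T (GG γ e.1) (t, pt e.2) :=
    fun e' he' => eqT (hp _) ((reg h e.1).sm.hT (hp e.2)) fun u hu => ((h.2 u hu).1 e).1 e' he'
  have h5 : ∑ e' ∈ D.star e, sg e' * bb T (D.weight e'.1) (GG γ e'.1) (t, pt e'.2) =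
      -inner ℝ (∑ e' ∈ D.star e, sg e' • ff (D.weight e'.1) (GG γ e'.1) (t, pt e'.2))
        (dT T (GG γ e.1) (t, pt e.2)) := by
    rw [sum_inner, ← Finset.sum_neg_distrib]
    refine Finset.sum_congr rfl fun e' he' => ?_
    rw [bb, h3 e' he', h4 e' he', real_inner_smul_left]
    ring
  rw [h5]
  by_cases h2 : 2 ≤ (D.star e).card
  · rw [force h ht h1 h2, inner_zero_left, neg_zero]
  · have h6 : 0 < (D.star e).card := Finset.card_pos.2 ⟨e, by simp [Net.star]⟩
    rw [dT_const (hp _) _ fun u hu => (((h.2 u hu).1 e).2.2 h1).2.1 (by omega),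
      inner_zero_right, neg_zero]

theorem sm_dis {G : ℝ × ℝ → ℂ} (h : Reg T G) (m : ℝ) :
    Sm T (fun p => vv m G p ^ 2 * rr G p) := (ContDiffOn.pow (h.sv m) 2).mul h.sr

/-- The energy identity. -/
theorem energy_deriv (h : IsFlow D T γ) {t : ℝ} (ht : t ∈ Ioo 0 T) :
    HasDerivAt (fun u => energy D (γ u)) (-∑ i, dis D γ t i) t := by
  classical
  have ht' := Ioo_subset_Ico_self ht
  have h1 := HasDerivAt.fun_sum (u := Finset.univ)
    fun i _ => ((reg h i).se (D.weight i)).deriv_int ht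
  have h2 := sum_star D (fun e => sg e * bb T (D.weight e.1) (GG γ e.1) (t, pt e.2)) univ
    fun e _ => flux h ht' e
  refine h1.congr_deriv (Eq.symm (((sub_zero _).symm.trans (congrArg _ h2.symm)).trans ?_))
  rw [← Finset.sum_neg_distrib, ← Finset.sum_sub_distrib]
  refine Finset.sum_congr rfl fun i _ => ?_
  rw [intervalIntegral.integral_congr (g := fun y => dX (bb T (D.weight i) (GG γ i)) (t, y) -
      vv (D.weight i) (GG γ i) (t, y) ^ 2 * rr (GG γ i) (t, y)) fun y hy => ?_,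
    intervalIntegral.integral_sub (((reg h i).sb _).dX.int ht') ((sm_dis (reg h i) _).int ht'),
    ((reg h i).sb _).ftc ht']
  · simp [sg, pt, dis]
    ring
  · rw [uIcc_of_le zero_le_one] at hy
    exact (reg h i).te _ ⟨ht', hy⟩ ((h.2 t ht').2 i y hy).2

theorem energy_cont (h : IsFlow D T γ) : ContinuousOn (fun u => energy D (γ u)) (Ico 0 T) :=
  continuousOn_finsetSum _ fun i _ => ((reg h i).se (D.weight i)).cont_int

theorem dis_nonneg (t : ℝ) (i : Fin N) : 0 ≤ dis D γ t i :=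
  intervalIntegral.integral_nonneg zero_le_one fun _ _ => mul_nonneg (sq_nonneg _) (norm_nonneg _)

theorem en_pos (h : IsFlow D T γ) {t : ℝ} (ht : t ∈ Ico 0 T) {i : Fin N} (hi : 0 < D.weight i) :
    0 < en D γ t i :=
  intervalIntegral.intervalIntegral_pos_of_pos_on (((reg h i).se _).int ht)
    (fun y hy => mul_pos (by positivity) ((reg h i).r_pos ⟨ht, Ioo_subset_Icc_self hy⟩))
    zero_lt_one

theorem energy_anti (h : IsFlow D T γ) : AntitoneOn (fun u => energy D (γ u)) (Ico 0 T) := by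
  refine antitoneOn_of_hasDerivWithinAt_nonpos (convex_Ico 0 T) (energy_cont h)
    (f' := fun t => -∑ i, dis D γ t i) (fun t ht => ?_) fun t _ => ?_
  · exact (energy_deriv h (interior_Ico (α := ℝ) ▸ ht)).hasDerivWithinAt
  · exact neg_nonpos.2 (Finset.sum_nonneg fun i _ => dis_nonneg t i)

/-- The change of the force along a curve is controlled by the dissipation. -/
theorem force_le (h : IsFlow D T γ) {t : ℝ} (ht : t ∈ Ico 0 T) (i : Fin N) {m l : ℝ} (hm : 0 < m)
    (hi : m ≤ D.weight i) {u : ℂ} (hu : ‖u‖ = 1) :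
    2 * l * inner ℝ (ff (D.weight i) (GG γ i) (t, 1) - ff (D.weight i) (GG γ i) (t, 0)) u ≤
      dis D γ t i + l ^ 2 / m * en D γ t i := by
  have R := reg h i
  have h1 : Sm T (fun p => 2 * l * inner ℝ (ff (D.weight i) (GG γ i) p) u) :=
    ContDiffOn.mul contDiffOn_const (ContDiffOn.inner ℝ (R.sf _) contDiffOn_const)
  rw [inner_sub_left, mul_sub, ← h1.ftc ht, dis, en, ← intervalIntegral.integral_const_mul,
    ← intervalIntegral.integral_add ((sm_dis R _).int ht) (((R.se _).int ht).const_mul _)]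
  refine intervalIntegral.integral_mono_on zero_le_one (h1.dX.int ht)
    (((sm_dis R _).int ht).add (((R.se _).int ht).const_mul _)) fun y hy => ?_
  have hp : (t, y) ∈ U T := ⟨ht, hy⟩
  rw [eqX hp ((((R.sf _).hX hp).inner ℝ (hasDerivWithinAt_const _ _ u)).const_mul (2 * l))
    fun _ _ => rfl, R.xf _ hp, inner_zero_right, zero_add, real_inner_smul_left, ee]
  have h2 := abs_real_inner_le_norm (Complex.I * tn (GG γ i) (t, y)) u
  rw [norm_mul, Complex.norm_I, R.norm_t hp, hu, one_mul, one_mul, ← sq_le_one_iff_abs_le_one] at h2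
  have h3 := R.r_pos hp
  have h4 : l ^ 2 ≤ l ^ 2 / m * (kk (GG γ i) (t, y) ^ 2 + D.weight i) := by
    rw [div_mul_eq_mul_div, le_div_iff₀ hm]
    exact mul_le_mul_of_nonneg_left (by nlinarith [sq_nonneg (kk (GG γ i) (t, y))]) (sq_nonneg l)
  generalize inner ℝ (Complex.I * tn (GG γ i) (t, y)) u = c at h2 ⊢
  generalize vv (D.weight i) (GG γ i) (t, y) = V
  nlinarith [mul_nonneg h3.le (sq_nonneg (V + l * c)), mul_le_mul_of_nonneg_left h4 h3.le,
    mul_nonneg (mul_nonneg h3.le (sq_nonneg l)) (sub_nonneg.2 h2)]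

/-- A free bridge forces dissipation. -/
theorem dis_ge (h : IsFlow D T γ) {S : Set ℕ} {b : Fin N × Bool} (hb : FreeBridge D S b) {m : ℝ}
    (hm : 0 < m) (hw : ∀ i, m ≤ D.weight i) {t : ℝ} (ht : t ∈ Ico 0 T) :
    m * D.weight b.1 ^ 2 ≤ energy D (γ t) * ∑ i, dis D γ t i := by
  classical
  obtain ⟨j, c⟩ := b
  obtain ⟨b1, b2, b3, b4⟩ := hb
  have hE : ∀ i, 0 < en D γ t i := fun i => en_pos h ht (hm.trans_le (hw i))
  have hp : (t, pt c) ∈ U T := ⟨ht, pt_mem c⟩
  obtain ⟨u, hu, hF⟩ : ∃ u : ℂ, ‖u‖ = 1 ∧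
      inner ℝ (sg (j, c) • ff (D.weight j) (GG γ j) (t, pt c)) u = D.weight j := by
    have h3 : kk (GG γ j) (t, pt c) = 0 := (((h.2 t ht).1 (j, c)).2.2 (b4 _ b1).1).1
    have h4 := (reg h j).norm_t hp
    have h5 := sq_c h4
    refine ⟨-sg (j, c) • tn (GG γ j) (t, pt c), ?_, ?_⟩
    · rw [norm_smul, h4]
      cases c <;> simp [sg]
    · rw [ff, h3, inner_c]
      cases c <;> simp [sg] <;> linear_combination D.weight j * h5
  have key : ∀ l : ℝ, 2 * l * D.weight j ≤ ∑ i, dis D γ t i + l ^ 2 / m * energy D (γ t) := by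
    intro l
    have h1 := congrArg (fun z => 2 * l * inner ℝ z u) (sum_star D
      (fun e => sg e • ff (D.weight e.1) (GG γ e.1) (t, pt e.2)) S
      fun e he => force h ht (b4 e he).1 (b4 e he).2)
    simp only [inner_zero_left, mul_zero] at h1
    rw [sum_inner, Finset.mul_sum] at h1
    rw [energy_eq, Finset.mul_sum, ← Finset.sum_add_distrib, ← sub_zero (2 * l * _), ← h1,
      ← Fintype.sum_ite_eq' j fun _ => 2 * l * D.weight j, ← Finset.sum_sub_distrib]
    refine Finset.sum_le_sum fun i _ => ?_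
    have h0 : 0 ≤ dis D γ t i + l ^ 2 / m * en D γ t i :=
      add_nonneg (dis_nonneg t i) (mul_nonneg (by positivity) (hE i).le)
    by_cases hi : i = j
    · subst hi
      cases c
      · rw [if_pos rfl, if_neg (c := D.vtx (i, true) ∈ S) b2, if_pos b1, zero_add, hF, sub_self]
        exact h0
      · rw [if_pos rfl, if_pos b1, if_neg (c := D.vtx (i, false) ∈ S) b2, add_zero, hF, sub_self]
        exact h0
    · rw [if_neg hi]
      by_cases hS : D.vtx (i, false) ∈ S
      · rw [if_pos hS, if_pos ((b3 i hi).1 hS)]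
        refine le_trans (le_of_eq ?_) (force_le h ht i (l := l) hm (hw i) hu)
        simp [sg, pt, inner_add_left, inner_sub_left]
        ring
      · rw [if_neg hS, if_neg fun k => hS ((b3 i hi).2 k)]
        simpa using h0
  have h2 : 0 < energy D (γ t) := Finset.sum_pos (fun i _ => hE i) ⟨j, Finset.mem_univ _⟩
  have h3 := mul_le_mul_of_nonneg_left (key (m * D.weight j / energy D (γ t))) h2.le
  generalize energy D (γ t) = E at h2 h3 ⊢
  have h4 : E * (2 * (m * D.weight j / E) * D.weight j) = 2 * (m * D.weight j ^ 2) := by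
    field_simp
  have h5 : E * ((m * D.weight j / E) ^ 2 / m * E) = m * D.weight j ^ 2 := by field_simp
  rw [mul_add, h4, h5] at h3
  linarith

theorem decay (h : IsFlow D T γ) {S : Set ℕ} {b : Fin N × Bool} (hb : FreeBridge D S b) {m : ℝ}
    (hm : 0 < m) (hw : ∀ i, m ≤ D.weight i) {t : ℝ} (ht : t ∈ Ico 0 T) :
    energy D (γ t) ^ 2 + 2 * m * D.weight b.1 ^ 2 * t ≤ energy D (γ 0) ^ 2 := by
  have h1 : AntitoneOn (fun u => energy D (γ u) ^ 2 + 2 * m * D.weight b.1 ^ 2 * u) (Ico 0 T) := by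
    refine antitoneOn_of_hasDerivWithinAt_nonpos (convex_Ico 0 T)
      (((energy_cont h).pow 2).add (by fun_prop)) (fun t ht => ?_) (f' := fun t =>
        2 * energy D (γ t) * (-∑ i, dis D γ t i) + 2 * m * D.weight b.1 ^ 2) fun t ht => ?_
    · refine ((((energy_deriv h (interior_Ico (α := ℝ) ▸ ht)).pow 2).add
        ((hasDerivAt_id t).const_mul (2 * m * D.weight b.1 ^ 2))).congr_deriv ?_).hasDerivWithinAt
      simp
    · linarith [dis_ge h hb hm hw (interior_subset ht)]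
  simpa using h1 ⟨le_rfl, ht.1.trans_lt ht.2⟩ ht ht.1

/-- A linear bound valid before `T` holds at `T`. -/
theorem time_le {T c A : ℝ} (hc : 0 < c) (hA : 0 ≤ A) (h : ∀ t ∈ Ico 0 T, c * t ≤ A) :
    T ≤ A / c :=
  le_of_forall_lt_imp_le_of_dense fun t ht => by
    rcases le_total 0 t with k | k
    · exact (le_div_iff₀' hc).2 (h t ⟨k, ht⟩)
    · exact k.trans (div_nonneg hA hc.le)

end Pool.Agent.MP_03af62_an.Ft
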