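import Pool.Agent.MP_03af62_an.Fin.Num
import Pool.Agent.MP_03af62_an.Fin.Net

/-! Energy bounds for loops with a corner, and the networks whose junctions carry such loops. -/

open Set Real MeasureTheory

namespace Pool.Agent.MP_03af62_an.Ft

theorem loop_abs {θ k r : ℝ → ℝ} (ck : Continuous k) (cr : Continuous r) (rp : ∀ x, 0 < r x)
    (hθ : ∀ x, HasDerivAt θ (r x * k x) x) (clo : ∀ c, ∫ x in (0 : ℝ)..1, r x * cos (θ x - c) = 0)
    {s : ℝ} (hs : 0 ≤ s) : 52 / 5 * s ≤ ∫ x in (0 : ℝ)..1, (k x ^ 2 + s ^ 2) * r x ∧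
      (|sin (θ 1 - θ 0)| < 1 / 10 → 57 / 5 * s ≤ ∫ x in (0 : ℝ)..1, (k x ^ 2 + s ^ 2) * r x) := by
  have cθ : Continuous θ := continuous_iff_continuousAt.2 fun x => (hθ x).continuousAt
  have i0 : (0 : ℝ) ∈ Icc (0 : ℝ) 1 := left_mem_Icc.2 zero_le_one
  have i1 : (1 : ℝ) ∈ Icc (0 : ℝ) 1 := right_mem_Icc.2 zero_le_one
  obtain ⟨x1, m1, h1⟩ := isCompact_Icc.exists_isMinOn ⟨0, i0⟩ cθ.continuousOn
  obtain ⟨x2, m2, h2⟩ := isCompact_Icc.exists_isMaxOn ⟨0, i0⟩ cθ.continuousOn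
  obtain ⟨α, c, e1, e2⟩ : ∃ α c, θ x1 - c = -α ∧ θ x2 - c = α :=
    ⟨(θ x2 - θ x1) / 2, (θ x2 + θ x1) / 2, by ring, by ring⟩
  have hb : ∀ x ∈ Icc (0 : ℝ) 1, |θ x - c| ≤ α := fun x hx =>
    abs_le.2 ⟨by linarith [isMinOn_iff.1 h1 x hx], by linarith [isMaxOn_iff.1 h2 x hx]⟩
  generalize hE : ∫ x in (0 : ℝ)..1, (k x ^ 2 + s ^ 2) * r x = E
  have key : ∀ a, (∀ y, |y| ≤ α → 0 ≤ 1 + a * cos y) →
      2 * s * (4 * ph a α - |ph a (θ 1 - c) - ph a (θ 0 - c)|) ≤ E := by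
    intro a ha
    obtain ⟨R, hR, r0⟩ : ∃ R : ℝ → ℝ, (∀ x, HasDerivAt R
        ((k x ^ 2 + s ^ 2) * r x + s ^ 2 * a * (r x * cos (θ x - c))) x) ∧ R 1 - R 0 = E := by
      refine ⟨_, fun x => (Continuous.integral_hasStrictDerivAt (f := fun x =>
        (k x ^ 2 + s ^ 2) * r x + s ^ 2 * a * (r x * cos (θ x - c))) (by fun_prop) 0
          x).hasDerivAt, ?_⟩
      rw [intervalIntegral.integral_same, sub_zero, intervalIntegral.integral_add
        (Continuous.intervalIntegrable (by fun_prop) _ _)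
        (Continuous.intervalIntegrable (by fun_prop) _ _), intervalIntegral.integral_const_mul,
        clo, mul_zero, add_zero, hE]
    have mm : ∀ σ : ℝ, σ ^ 2 = s ^ 2 → ∀ p ∈ Icc (0 : ℝ) 1, ∀ q ∈ Icc (0 : ℝ) 1, p ≤ q →
        R p + 2 * σ * ph a (θ p - c) ≤ R q + 2 * σ * ph a (θ q - c) := fun σ hσ p hp q hq hpq =>
      le_of_deriv hpq (fun x => (hR x).add
        (((ph_deriv a (θ x - c)).comp x ((hθ x).sub_const c)).const_mul (2 * σ))) fun x hx => by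
          have c1 := sq_sqrt (ha _ (hb x ⟨hp.1.trans hx.1, hx.2.trans hq.2⟩))
          refine le_of_le_of_eq
            (mul_nonneg (rp x).le (sq_nonneg (k x + σ * √(1 + a * cos (θ x - c))))) ?_
          linear_combination r x * σ ^ 2 * c1 + r x * (1 + a * cos (θ x - c)) * hσ
    have p1 := mm s rfl
    have p2 := mm (-s) (neg_sq s)
    have n1 := mul_le_mul_of_nonneg_left (le_abs_self (ph a (θ 1 - c) - ph a (θ 0 - c))) hs
    have n2 := mul_le_mul_of_nonneg_left (neg_le_abs (ph a (θ 1 - c) - ph a (θ 0 - c))) hs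
    rcases le_total x1 x2 with h | h
    · have a1 := p1 0 i0 x1 m1 m1.1
      have a2 := p2 x1 m1 x2 m2 h
      have a3 := p1 x2 m2 1 i1 m2.2
      rw [e1, ph_neg] at a1 a2
      rw [e2] at a2 a3
      linarith
    · have a1 := p2 0 i0 x2 m2 m2.1
      have a2 := p1 x2 m2 x1 m1 h
      have a3 := p2 x1 m1 1 i1 m1.2
      rw [e1, ph_neg] at a2 a3
      rw [e2] at a1 a2
      linarith
  have key1 : ∀ a, (∀ y, |y| ≤ α → 0 ≤ 1 + a * cos y) → 4 * (s * ph a α) ≤ E := by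
    intro a ha
    have a1 := ph_mono a (abs_le.1 (hb 0 i0)).1
    have a2 := ph_mono a (abs_le.1 (hb 0 i0)).2
    have a3 := ph_mono a (abs_le.1 (hb 1 i1)).1
    have a4 := ph_mono a (abs_le.1 (hb 1 i1)).2
    rw [ph_neg] at a1 a3
    have a5 : |ph a (θ 1 - c) - ph a (θ 0 - c)| ≤ 2 * ph a α :=
      abs_le.2 ⟨by linarith, by linarith⟩
    linarith [key a ha, mul_le_mul_of_nonneg_left a5 hs]
  have hα : 157 / 100 ≤ α := by
    by_contra h
    refine (intervalIntegral.intervalIntegral_pos_of_pos_on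
      (Continuous.intervalIntegrable (by fun_prop) _ _) (fun x hx => mul_pos (rp x) ?_)
      zero_lt_one).ne' (clo c)
    have := abs_le.1 (hb x (Ioo_subset_Icc_self hx))
    exact cos_pos_of_mem_Ioo ⟨by linarith [pi_gt_d2], by linarith [pi_gt_d2]⟩
  obtain ⟨a, a0, a1, a2, a3, a4⟩ := good hα
  refine ⟨by linarith [key1 a a1, mul_le_mul_of_nonneg_left a3 hs], fun h => ?_⟩
  have b0 := abs_le.1 (hb 0 i0)
  have b1 := abs_le.1 (hb 1 i1)
  rcases le_total 6 |θ 1 - θ 0| with d | d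
  · have c1 := key1 0 fun y _ => by simp
    have c2 : |θ 1 - θ 0| ≤ 2 * α := abs_le.2 ⟨by linarith, by linarith⟩
    rw [ph_id] at c1
    linarith [mul_le_mul_of_nonneg_left (d.trans c2) hs]
  rcases a4 with a4 | a4
  · linarith [key1 a a1, mul_le_mul_of_nonneg_left a4 hs]
  have c1 := abs_le.1 (le_of_not_ge fun k => h.not_ge (sin_ge k d))
  have c2 : |ph a (θ 1 - c) - ph a (θ 0 - c)| ≤ 2 * ph a (163 / 100) := by
    rw [abs_sub_le_iff]
    exact ⟨rear a0 (a2.imp_right fun k => ⟨by linarith, by linarith⟩) (by linarith),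
      rear a0 (a2.imp_right fun k => ⟨by linarith, by linarith⟩) (by linarith)⟩
  linarith [key a a1, mul_le_mul_of_nonneg_left c2 hs, mul_le_mul_of_nonneg_left a4 hs]

/-- Energy bounds for a curve whose two ends coincide. -/
theorem Reg.loop {T t : ℝ} {G : ℝ × ℝ → ℂ} (h : Reg T G) (ht : t ∈ Ico 0 T)
    (hc : G (t, 1) = G (t, 0)) {s : ℝ} (hs : 0 ≤ s) :
    52 / 5 * s ≤ ∫ y in (0 : ℝ)..1, ee (s ^ 2) G (t, y) ∧
      (|inner ℝ (tn G (t, 0)) (Complex.I * tn G (t, 1))| < 1 / 10 →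
        57 / 5 * s ≤ ∫ y in (0 : ℝ)..1, ee (s ^ 2) G (t, y)) := by
  have ext : ∀ {f : ℝ × ℝ → ℝ}, Sm T f → ∃ g : ℝ → ℝ, Continuous g ∧
      (∀ x ∈ Icc (0 : ℝ) 1, g x = f (t, x)) ∧ ∀ x, ∃ y ∈ Icc (0 : ℝ) 1, g x = f (t, y) :=
    fun {f} hf => ⟨fun x => f (t, projIcc 0 1 zero_le_one x),
      (slice hf.continuousOn ht).comp_continuous
        (continuous_subtype_val.comp (continuous_projIcc (h := zero_le_one))) fun x => (projIcc 0 1 zero_le_one x).2,
      fun x hx => by simp only [projIcc_of_mem zero_le_one hx],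
      fun x => ⟨_, (projIcc 0 1 zero_le_one x).2, rfl⟩⟩
  obtain ⟨k, ck, ek, -⟩ := ext h.sk
  obtain ⟨r, cr, er, rp⟩ := ext h.sr
  have i0 : (0 : ℝ) ∈ Icc (0 : ℝ) 1 := left_mem_Icc.2 zero_le_one
  have i1 : (1 : ℝ) ∈ Icc (0 : ℝ) 1 := right_mem_Icc.2 zero_le_one
  obtain ⟨θ, hθ, h0⟩ : ∃ θ : ℝ → ℝ, (∀ x, HasDerivAt θ (r x * k x) x) ∧
      θ 0 = Complex.arg (tn G (t, 0)) :=
    ⟨_, fun x => (Continuous.integral_hasStrictDerivAt (f := fun x => r x * k x) (cr.mul ck) 0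
      x).hasDerivAt.add_const (Complex.arg (tn G (t, 0))), by simp⟩
  have lift : ∀ x ∈ Icc (0 : ℝ) 1, tn G (t, x) = Complex.exp (θ x * Complex.I) := by
    have d : ∀ x ∈ Icc (0 : ℝ) 1, HasDerivWithinAt
        (fun y => tn G (t, y) * Complex.exp (-(θ y * Complex.I))) 0 (Icc 0 1) x := fun x hx => by
      refine ((h.st.hX (p := (t, x)) ⟨ht, hx⟩).mul
        (((hθ x).ofReal_comp.mul_const Complex.I).neg.cexp.hasDerivWithinAt)).congr_deriv ?_
      rw [h.xt ⟨ht, hx⟩, ek x hx, er x hx]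
      simp
      ring
    intro x hx
    have e := constant_of_derivWithin_zero (fun x hx => (d x hx).differentiableWithinAt)
      (fun x hx => (d x (Ico_subset_Icc_self hx)).derivWithin
        (uniqueDiffOn_Icc zero_lt_one x (Ico_subset_Icc_self hx))) x hx
    have e0 := Complex.norm_mul_exp_arg_mul_I (tn G (t, 0))
    rw [h.norm_t ⟨ht, i0⟩, Complex.ofReal_one, one_mul, ← h0] at e0
    simp only [Complex.exp_neg] at e
    rw [← e0, mul_inv_cancel₀ (Complex.exp_ne_zero _)] at e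
    exact (mul_inv_eq_one₀ (Complex.exp_ne_zero _)).1 e
  have hE : ∫ x in (0 : ℝ)..1, (k x ^ 2 + s ^ 2) * r x = ∫ y in (0 : ℝ)..1, ee (s ^ 2) G (t, y) :=
    intervalIntegral.integral_congr fun y hy => by
      rw [uIcc_of_le zero_le_one] at hy
      simp only [ek y hy, er y hy, ee]
  have ha : |inner ℝ (tn G (t, 0)) (Complex.I * tn G (t, 1))| = |sin (θ 1 - θ 0)| := by
    rw [lift 0 i0, lift 1 i1, inner_c, sin_sub, ← abs_neg]
    simp [Complex.exp_ofReal_mul_I_re, Complex.exp_ofReal_mul_I_im]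
    ring_nf
  rw [← hE, ha]
  refine loop_abs ck cr (fun x => ?_) hθ (fun c => ?_) hs
  · obtain ⟨y, hy, e⟩ := rp x
    exact e ▸ h.r_pos ⟨ht, hy⟩
  · have h1 : Sm T (fun p => inner ℝ (G p) (Complex.exp (c * Complex.I))) :=
      ContDiffOn.inner ℝ h.sm contDiffOn_const
    have h2 := h1.ftc ht
    rw [hc, sub_self] at h2
    refine (intervalIntegral.integral_congr fun y hy => ?_).trans h2
    rw [uIcc_of_le zero_le_one] at hy
    have hp : (t, y) ∈ U T := ⟨ht, hy⟩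
    rw [eqX hp ((h.sm.hX hp).inner ℝ (hasDerivWithinAt_const _ _ _)) fun _ _ => rfl, h.xG hp,
      lift y hy, ← er y hy, inner_zero_right, zero_add, real_inner_smul_left, inner_c, cos_sub]
    simp [Complex.exp_ofReal_mul_I_re, Complex.exp_ofReal_mul_I_im]

variable {N : ℕ} {D : Net N} {T : ℝ} {γ : ℝ → Fin N → ℝ → ℂ}

theorem closed (h : IsFlow D T γ) {t : ℝ} (ht : t ∈ Ico 0 T) {i : Fin N}
    (hi : D.vtx (i, false) = D.vtx (i, true)) : GG γ i (t, 1) = GG γ i (t, 0) := by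
  simpa [pt, GG] using ((h.2 t ht).1 (i, false)).1 (i, true) (by simp [Net.star, hi])

theorem only_bridge (h : IsFlow D T γ) (hT : 0 < T) {S : Set ℕ} {b : Fin N × Bool}
    (hb : FreeBridge D S b) {m : ℝ} (hm : 0 < m) (hw : ∀ i, m ≤ D.weight i) (L : Finset (Fin N))
    (hL : ∀ i ∈ L, D.vtx (i, false) = D.vtx (i, true))
    (hE : energy D (γ 0) < ∑ i ∈ L, 52 / 5 * √(D.weight i) + √m) :
    T ≤ (energy D (γ 0) ^ 2 - (∑ i ∈ L, 52 / 5 * √(D.weight i)) ^ 2) / (2 * m * D.weight b.1 ^ 2) ∧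
      ∀ t ∈ Ico 0 T, ∀ i ∈ L, 1 / 10 ≤ |inner ℝ (ds (γ t i) (γ t i) 0) (nrm (γ t i) 1)| ∧
        3 ≤ √(D.weight i) * len (γ t i) := by
  classical
  have hp : ∀ i, 0 < D.weight i := fun i => hm.trans_le (hw i)
  have h1 : ∀ t ∈ Ico 0 T, ∀ i ∈ L, 52 / 5 * √(D.weight i) ≤ en D γ t i ∧
      (|inner ℝ (ds (γ t i) (γ t i) 0) (nrm (γ t i) 1)| < 1 / 10 →
        57 / 5 * √(D.weight i) ≤ en D γ t i) := fun t ht i hi => by
    have := (reg h i).loop ht (closed h ht (hL i hi)) (sqrt_nonneg (D.weight i))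
    rwa [sq_sqrt (hp i).le] at this
  have h2 : ∀ t ∈ Ico 0 T, ∑ i ∈ L, en D γ t i ≤ energy D (γ t) := fun t ht =>
    Finset.sum_le_sum_of_subset_of_nonneg (Finset.subset_univ L)
      fun i _ _ => (en_pos h ht (hp i)).le
  have h3 : ∀ t ∈ Ico 0 T, 2 * m * D.weight b.1 ^ 2 * t ≤
      energy D (γ 0) ^ 2 - (∑ i ∈ L, 52 / 5 * √(D.weight i)) ^ 2 := fun t ht => by
    have := pow_le_pow_left₀ (Finset.sum_nonneg fun i _ => by positivity)
      ((Finset.sum_le_sum fun i hi => (h1 t ht i hi).1).trans (h2 t ht)) 2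
    linarith [decay h hb hm hw ht]
  refine ⟨time_le (by have := hp b.1; positivity) (by simpa using h3 0 ⟨le_rfl, hT⟩) h3,
    fun t ht i hi => ?_⟩
  have h4 : en D γ t i < 57 / 5 * √(D.weight i) := by
    have a1 := Finset.sum_le_sum (s := L.erase i)
      fun j hj => (h1 t ht j (Finset.mem_of_mem_erase hj)).1
    have a2 := Finset.add_sum_erase L (fun j => en D γ t j) hi
    have a3 := Finset.add_sum_erase L (fun j => 52 / 5 * √(D.weight j)) hi
    have a4 := energy_anti h ⟨le_rfl, hT⟩ ht ht.1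
    linarith [h2 t ht, sqrt_le_sqrt (hw i)]
  refine ⟨le_of_not_gt fun k => h4.not_ge ((h1 t ht i hi).2 k), ?_⟩
  have R := reg h i
  have a1 := (R.loop ht (closed h ht (hL i hi)) (s := 2 * √(D.weight i)) (by positivity)).1
  have a2 : ∫ y in (0 : ℝ)..1, ee ((2 * √(D.weight i)) ^ 2) (GG γ i) (t, y) =
      en D γ t i + 3 * D.weight i * len (γ t i) := by
    rw [en, len, ← intervalIntegral.integral_const_mul, mul_pow, sq_sqrt (hp i).le]
    refine Eq.trans (intervalIntegral.integral_congr fun y _ => ?_)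
      (intervalIntegral.integral_add ((R.se _).int ht) ((R.sr.int ht).const_mul _))
    have e : ‖derivWithin (γ t i) (Icc 0 1) y‖ = rr (GG γ i) (t, y) := rfl
    simp only [ee, e]
    ring
  have a3 := sqrt_pos.2 (hp i)
  refine le_of_mul_le_mul_left ?_ a3
  rw [← mul_assoc, mul_self_sqrt (hp i).le]
  linarith

end Pool.Agent.MP_03af62_an.Ft
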