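import Mathlib

/-! Lower bounds for the integrals of `√(1 + a cos y)`. -/

open Set Real

namespace Pool.Agent.MP_03af62_an.Ft

theorem le_of_deriv {f f' : ℝ → ℝ} {p q : ℝ} (hpq : p ≤ q)
    (h : ∀ x, HasDerivAt f (f' x) x) (h' : ∀ x ∈ Icc p q, 0 ≤ f' x) : f p ≤ f q :=
  monotoneOn_of_hasDerivWithinAt_nonneg (convex_Icc p q)
    (fun x _ => (h x).continuousAt.continuousWithinAt) (fun x _ => (h x).hasDerivWithinAt)
    (fun x hx => h' x (interior_subset hx)) (left_mem_Icc.2 hpq) (right_mem_Icc.2 hpq) hpq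

theorem int_step {f : ℝ → ℝ} (h : Differentiable ℝ f) (h0 : f 0 = 0)
    (hg : ∀ x, 0 ≤ x → 0 ≤ deriv f x) (x : ℝ) (hx : 0 ≤ x) : 0 ≤ f x :=
  h0 ▸ le_of_deriv hx (fun y => (h y).hasDerivAt) fun y hy => hg y hy.1

theorem t4 : ∀ x : ℝ, 0 ≤ x → 0 ≤ (1 - x ^ 2 / 2 + x ^ 4 / 24) - cos x :=
  int_step (by fun_prop) (by simp) fun x hx => le_of_le_of_eq (sub_nonneg.2 (sin_ge_sub_cube hx)) (by
    rw [eq_comm]
    simp (disch := fun_prop)
    ring)

theorem t5 : ∀ x : ℝ, 0 ≤ x → 0 ≤ (x - x ^ 3 / 6 + x ^ 5 / 120) - sin x :=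
  int_step (by fun_prop) (by simp) fun x hx => le_of_le_of_eq (t4 x hx) (by
    rw [eq_comm]
    simp (disch := fun_prop)
    ring)

theorem t6 : ∀ x : ℝ, 0 ≤ x → 0 ≤ cos x - (1 - x ^ 2 / 2 + x ^ 4 / 24 - x ^ 6 / 720) :=
  int_step (by fun_prop) (by simp) fun x hx => le_of_le_of_eq (t5 x hx) (by
    rw [eq_comm]
    simp (disch := fun_prop)
    ring)

theorem t7 : ∀ x : ℝ, 0 ≤ x → 0 ≤ sin x - (x - x ^ 3 / 6 + x ^ 5 / 120 - x ^ 7 / 5040) :=
  int_step (by fun_prop) (by simp) fun x hx => le_of_le_of_eq (t6 x hx) (by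
    rw [eq_comm]
    simp (disch := fun_prop)
    ring)

theorem t8 : ∀ x : ℝ, 0 ≤ x → 0 ≤ (1 - x ^ 2 / 2 + x ^ 4 / 24 - x ^ 6 / 720 + x ^ 8 / 40320) - cos x :=
  int_step (by fun_prop) (by simp) fun x hx => le_of_le_of_eq (t7 x hx) (by
    rw [eq_comm]
    simp (disch := fun_prop)
    ring)

theorem t9 : ∀ x : ℝ, 0 ≤ x → 0 ≤ (x - x ^ 3 / 6 + x ^ 5 / 120 - x ^ 7 / 5040 + x ^ 9 / 362880) - sin x :=
  int_step (by fun_prop) (by simp) fun x hx => le_of_le_of_eq (t8 x hx) (by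
    rw [eq_comm]
    simp (disch := fun_prop)
    ring)

theorem t10 : ∀ x : ℝ, 0 ≤ x → 0 ≤ cos x - (1 - x ^ 2 / 2 + x ^ 4 / 24 - x ^ 6 / 720 + x ^ 8 / 40320 - x ^ 10 / 3628800) :=
  int_step (by fun_prop) (by simp) fun x hx => le_of_le_of_eq (t9 x hx) (by
    rw [eq_comm]
    simp (disch := fun_prop)
    ring)

noncomputable def pu (x : ℝ) : ℝ := 1 - x ^ 2 / 2 + x ^ 4 / 24 - x ^ 6 / 720 + x ^ 8 / 40320
noncomputable def pl (x : ℝ) : ℝ := pu x - x ^ 10 / 3628800
noncomputable def ps (x : ℝ) : ℝ :=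
  x - x ^ 3 / 6 + x ^ 5 / 120 - x ^ 7 / 5040 + x ^ 9 / 362880 - x ^ 11 / 39916800

theorem cos_le_pu {x : ℝ} (hx : 0 ≤ x) : cos x ≤ pu x := sub_nonneg.1 (t8 x hx)

theorem pl_le_cos {x : ℝ} (hx : 0 ≤ x) : pl x ≤ cos x := sub_nonneg.1 (t10 x hx)

theorem ps_deriv (x : ℝ) : HasDerivAt ps (pl x) x := by
  have h : Differentiable ℝ ps := by
    unfold ps
    fun_prop
  refine (h x).hasDerivAt.congr_deriv ?_
  unfold ps pl pu
  simp (disch := fun_prop)
  ring

/-- The primitive of `√(1 + a cos y)`. -/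
noncomputable def ph (a x : ℝ) : ℝ := ∫ y in (0 : ℝ)..x, √(1 + a * cos y)

theorem ph_deriv (a x : ℝ) : HasDerivAt (ph a) √(1 + a * cos x) x :=
  (Continuous.integral_hasStrictDerivAt (f := fun y => √(1 + a * cos y)) (by fun_prop) 0
    x).hasDerivAt

theorem ph_zero (a : ℝ) : ph a 0 = 0 := intervalIntegral.integral_same

theorem ph_neg (a x : ℝ) : ph a (-x) = -ph a x := by
  have h := intervalIntegral.integral_comp_neg (a := 0) (b := x) fun y => √(1 + a * cos y)
  simp only [cos_neg, neg_zero] at h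
  rw [ph, ph, h, ← intervalIntegral.integral_symm]

theorem ph_mono (a : ℝ) : Monotone (ph a) :=
  fun _ _ h => le_of_deriv h (ph_deriv a) fun _ _ => sqrt_nonneg _

theorem ph_id (x : ℝ) : ph 0 x = x := by simp [ph]

theorem step (a p q h1 h2 v : ℝ) (h : 0 ≤ p ∧ p ≤ q ∧ q ≤ 3 ∧ 0 ≤ a ∧ 0 < h1 ∧ 0 ≤ h2 ∧
    h2 ^ 2 ≤ 1 + a * pl q ∧ 1 + a * pu p ≤ h1 ^ 2 ∧
      v * (h1 + h2) ≤ (1 + h1 * h2) * (q - p) + a * (ps q - ps p)) : v ≤ ph a q - ph a p := by
  obtain ⟨k1, k2, k3, k4, k5, k6, k7, k8, k9⟩ := h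
  have h := le_of_deriv k2 (fun x => (((ph_deriv a x).mul_const (h1 + h2)).sub
    ((hasDerivAt_id x).const_mul (1 + h1 * h2))).sub ((ps_deriv x).const_mul a)) fun x hx => by
      have c1 : cos q ≤ cos x := cos_le_cos_of_nonneg_of_le_pi (k1.trans hx.1)
        (k3.trans pi_gt_three.le) hx.2
      have c2 : cos x ≤ cos p := cos_le_cos_of_nonneg_of_le_pi k1
        (hx.2.trans (k3.trans pi_gt_three.le)) hx.1
      have c3 := mul_le_mul_of_nonneg_left ((pl_le_cos (k1.trans k2)).trans c1) k4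
      have c4 := mul_le_mul_of_nonneg_left (c2.trans (cos_le_pu k1)) k4
      have c5 := mul_le_mul_of_nonneg_left (pl_le_cos (k1.trans hx.1)) k4
      have c6 : h2 ≤ √(1 + a * cos x) := le_sqrt_of_sq_le (by linarith)
      have c7 : √(1 + a * cos x) ≤ h1 := sqrt_le_iff.2 ⟨k5.le, by linarith⟩
      have c8 := sq_sqrt (show 0 ≤ 1 + a * cos x by nlinarith [sq_nonneg h2])
      nlinarith [mul_nonneg (sub_nonneg.2 c6) (sub_nonneg.2 c7)]
  simp only [Pi.sub_apply, id] at h
  refine le_of_mul_le_mul_right ?_ (show 0 < h1 + h2 by positivity)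
  linarith

/-- The symmetric interval carries the largest integral. -/
theorem rear {a x y : ℝ} (ha : 0 ≤ a) (h : a = 0 ∨ (-3 ≤ x ∧ y ≤ 3)) (hxy : y - x ≤ 163 / 50) :
    ph a y - ph a x ≤ 2 * ph a (163 / 100) := by
  have key : ∀ x y, (a = 0 ∨ y ≤ 3) → y - x ≤ 163 / 50 → 163 / 100 ≤ y →
      ph a y - ph a x ≤ 2 * ph a (163 / 100) := by
    intro x y h hxy hy
    have h1 := le_of_deriv hy (fun u => ((ph_deriv a (u - 163 / 50)).comp_sub_const u _).sub
      (ph_deriv a u)) fun u hu => sub_nonneg.2 (sqrt_le_sqrt (by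
        rcases h with rfl | h
        · simp
        · rw [← cos_abs (u - 163 / 50)]
          have := cos_le_cos_of_nonneg_of_le_pi (abs_nonneg (u - 163 / 50))
            (hu.2.trans (h.trans pi_gt_three.le)) (abs_le.2 ⟨by linarith [hu.1], by linarith⟩)
          nlinarith))
    have h2 := ph_mono a (show y - 163 / 50 ≤ x by linarith)
    have h3 := ph_neg a (163 / 100)
    simp only [Pi.sub_apply] at h1
    norm_num at h1 h3
    linarith
  rcases le_total (163 / 100) y with k | k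
  · exact key x y (h.imp_right And.right) hxy k
  rcases le_total x (-(163 / 100)) with k' | k'
  · have := key (-y) (-x) (h.imp_right fun h => by linarith [h.1]) (by linarith) (by linarith)
    rw [ph_neg, ph_neg] at this
    linarith
  · have h1 := ph_mono a k
    have h2 := ph_mono a k'
    rw [ph_neg] at h2
    linarith

/-- A multiplier `a` which is admissible on `[-α, α]` and gives large integrals. -/
def Good (α : ℝ) : Prop := ∃ a : ℝ, 0 ≤ a ∧ (∀ y, |y| ≤ α → 0 ≤ 1 + a * cos y) ∧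
  (a = 0 ∨ α ≤ 3) ∧ 13 / 5 ≤ ph a α ∧
    (57 / 20 ≤ ph a α ∨ 57 / 20 ≤ 2 * ph a α - ph a (163 / 100))

theorem good_of (a p q : ℝ) {α : ℝ} (h1 : p ≤ α) (h2 : α ≤ q)
    (h3 : 0 ≤ a ∧ 0 ≤ q ∧ q ≤ 3 ∧ 0 ≤ 1 + a * pl q) (h4 : 13 / 5 ≤ ph a p ∧
      (57 / 20 ≤ ph a p ∨ 57 / 20 ≤ 2 * ph a p - ph a (163 / 100))) : Good α := by
  have h5 := ph_mono a h1
  refine ⟨a, h3.1, fun y hy => ?_, Or.inr (h2.trans h3.2.2.1), h4.1.trans h5,
    h4.2.imp (fun h => h.trans h5) fun h => by linarith⟩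
  have c1 := cos_le_cos_of_nonneg_of_le_pi (abs_nonneg y) (h3.2.2.1.trans pi_gt_three.le)
    (hy.trans h2)
  rw [cos_abs] at c1
  linarith [mul_le_mul_of_nonneg_left ((pl_le_cos h3.2.1).trans c1) h3.1, h3.2.2.2]

theorem good {α : ℝ} (h0 : 157 / 100 ≤ α) : Good α := by
  rcases le_or_gt α (9 / 5) with h | h0
  · refine good_of (22 / 5) (157 / 100) (9 / 5) h0 h (by norm_num [pl, pu]) ?_
    have := step (22 / 5) 0 (4 / 5) (233 / 100) (201 / 100) (887 / 500) (by norm_num [pl, pu, ps])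
    have := step (22 / 5) (4 / 5) (6 / 5) (101 / 50) (161 / 100) (91 / 125) (by norm_num [pl, pu, ps])
    have := step (22 / 5) (6 / 5) (157 / 100) (81 / 50) 1 (121 / 250) (by norm_num [pl, pu, ps])
    have := ph_zero (22 / 5)
    exact ⟨by linarith, Or.inl (by linarith)⟩
  replace h0 := h0.le
  rcases le_or_gt α (39 / 20) with h | h0
  · refine good_of (27 / 10) (9 / 5) (39 / 20) h0 h (by norm_num [pl, pu]) ?_
    have := step (27 / 10) 0 (9 / 10) (193 / 100) (163 / 100) (821 / 500) (by norm_num [pl, pu, ps])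
    have := step (27 / 10) (9 / 10) (13 / 10) (41 / 25) (131 / 100) (591 / 1000) (by norm_num [pl, pu, ps])
    have := step (27 / 10) (13 / 10) (163 / 100) (33 / 25) (91 / 100) (367 / 1000) (by norm_num [pl, pu, ps])
    have := step (27 / 10) (163 / 100) (9 / 5) (23 / 25) (31 / 50) (13 / 100) (by norm_num [pl, pu, ps])
    have := ph_zero (27 / 10)
    exact ⟨by linarith, Or.inr (by linarith)⟩
  replace h0 := h0.le
  rcases le_or_gt α (52 / 25) with h | h0
  · refine good_of (41 / 20) (39 / 20) (52 / 25) h0 h (by norm_num [pl, pu]) ?_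
    have := step (41 / 20) 0 (9 / 10) (7 / 4) (3 / 2) (1497 / 1000) (by norm_num [pl, pu, ps])
    have := step (41 / 20) (9 / 10) (13 / 10) (151 / 100) (31 / 25) (69 / 125) (by norm_num [pl, pu, ps])
    have := step (41 / 20) (13 / 10) (163 / 100) (5 / 4) (93 / 100) (359 / 1000) (by norm_num [pl, pu, ps])
    have := step (41 / 20) (163 / 100) (39 / 20) (47 / 50) (49 / 100) (227 / 1000) (by norm_num [pl, pu, ps])
    have := ph_zero (41 / 20)
    exact ⟨by linarith, Or.inr (by linarith)⟩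
  replace h0 := h0.le
  rcases le_or_gt α (11 / 5) with h | h0
  · refine good_of (169 / 100) (52 / 25) (11 / 5) h0 h (by norm_num [pl, pu]) ?_
    have := step (169 / 100) 0 (9 / 10) (33 / 20) (143 / 100) (1411 / 1000) (by norm_num [pl, pu, ps])
    have := step (169 / 100) (9 / 10) (13 / 10) (36 / 25) (6 / 5) (66 / 125) (by norm_num [pl, pu, ps])
    have := step (169 / 100) (13 / 10) (163 / 100) (121 / 100) (47 / 50) (71 / 200) (by norm_num [pl, pu, ps])
    have := step (169 / 100) (163 / 100) (19 / 10) (19 / 20) (67 / 100) (109 / 500) (by norm_num [pl, pu, ps])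
    have := step (169 / 100) (19 / 10) (52 / 25) (17 / 25) (41 / 100) (97 / 1000) (by norm_num [pl, pu, ps])
    have := ph_zero (169 / 100)
    exact ⟨by linarith, Or.inr (by linarith)⟩
  replace h0 := h0.le
  rcases le_or_gt α (58 / 25) with h | h0
  · refine good_of (73 / 50) (11 / 5) (58 / 25) h0 h (by norm_num [pl, pu]) ?_
    have := step (73 / 50) 0 1 (157 / 100) (133 / 100) (186 / 125) (by norm_num [pl, pu, ps])
    have := step (73 / 50) 1 (163 / 100) (67 / 50) (19 / 20) (29 / 40) (by norm_num [pl, pu, ps])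
    have := step (73 / 50) (163 / 100) (39 / 20) (24 / 25) (67 / 100) (13 / 50) (by norm_num [pl, pu, ps])
    have := step (73 / 50) (39 / 20) (11 / 5) (17 / 25) (37 / 100) (13 / 100) (by norm_num [pl, pu, ps])
    have := ph_zero (73 / 50)
    exact ⟨by linarith, Or.inr (by linarith)⟩
  replace h0 := h0.le
  rcases le_or_gt α (49 / 20) with h | h0
  · refine good_of (129 / 100) (58 / 25) (49 / 20) h0 h (by norm_num [pl, pu]) ?_
    have := step (129 / 100) 0 1 (38 / 25) (13 / 10) (36 / 25) (by norm_num [pl, pu, ps])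
    have := step (129 / 100) 1 (163 / 100) (131 / 100) (24 / 25) (143 / 200) (by norm_num [pl, pu, ps])
    have := step (129 / 100) (163 / 100) 2 (97 / 100) (17 / 25) (151 / 500) (by norm_num [pl, pu, ps])
    have := step (129 / 100) 2 (58 / 25) (69 / 100) (17 / 50) (161 / 1000) (by norm_num [pl, pu, ps])
    have := ph_zero (129 / 100)
    exact ⟨by linarith, Or.inr (by linarith)⟩
  replace h0 := h0.le
  rcases le_or_gt α (53 / 20) with h | h0
  · refine good_of (113 / 100) (49 / 20) (53 / 20) h0 h (by norm_num [pl, pu]) ?_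
    have := step (113 / 100) 0 1 (73 / 50) (63 / 50) (1393 / 1000) (by norm_num [pl, pu, ps])
    have := step (113 / 100) 1 (163 / 100) (127 / 100) (24 / 25) (353 / 500) (by norm_num [pl, pu, ps])
    have := step (113 / 100) (163 / 100) (21 / 10) (97 / 100) (13 / 20) (189 / 500) (by norm_num [pl, pu, ps])
    have := step (113 / 100) (21 / 10) (49 / 20) (33 / 50) (7 / 20) (87 / 500) (by norm_num [pl, pu, ps])
    have := ph_zero (113 / 100)
    exact ⟨by linarith, Or.inr (by linarith)⟩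
  replace h0 := h0.le
  exact ⟨0, le_rfl, fun y _ => by simp, Or.inl rfl, by rw [ph_id]; linarith,
    Or.inr (by rw [ph_id, ph_id]; linarith)⟩

theorem sin_ge {d : ℝ} (h1 : 163 / 50 ≤ |d|) (h2 : |d| ≤ 6) : 1 / 10 ≤ |sin d| := by
  have key : ∀ y : ℝ, 11 / 100 ≤ y → y ≤ π / 2 → 1 / 10 ≤ sin y := fun y k1 k2 => by
    have c1 := sin_le_sin_of_le_of_le_pi_div_two (by linarith [pi_pos]) k2 k1
    have c2 := sin_ge_sub_cube (x := 11 / 100) (by norm_num)
    linarith
  have h3 : 1 / 10 ≤ -sin |d| := by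
    rcases le_total (|d| - π) (π / 2) with k | k
    · rw [← sin_sub_pi]
      exact key _ (by linarith [pi_lt_d2]) k
    · rw [← sin_two_pi_sub]
      exact key _ (by linarith [pi_gt_d2]) (by linarith)
  rcases abs_cases d with k | k
  · rw [k.1] at h3
    exact h3.trans (neg_le_abs _)
  · rw [k.1, sin_neg, neg_neg] at h3
    exact h3.trans (le_abs_self _)

end Pool.Agent.MP_03af62_an.Ft
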